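import Pool.Agent.MP_887f27_pr.H69.Spec

/-! Deterministic and measure theoretic lemmas for the abstract module. -/

namespace Pool.Agent.MP_887f27_pr.H48

open MeasureTheory ProbabilityTheory Set Filter Topology
open scoped ENNReal
open Pool.Agent.MP_887f27_pr.H69
open MP_77ae5d_pr.H74 (Dep)

/-- A message of some depth. -/
def S (K : Set V) (v : V) (d : Dir) : Prop := ∃ j, Fw K j v d

/-- Degree and closure properties everywhere. -/
def Nice (K : Set V) : Prop := (∀ y, Deg K y) ∧ ∀ Y, Clos K Y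

lemma S.mono {K K' : Set V} {v : V} {d : Dir} (h : K ⊆ K') (hs : S K v d) : S K' v d :=
  hs.imp fun _ a => Fw.mono_set h a

lemma S.of_mem {K : Set V} {v : V} {d : Dir} (h : v * g d ∈ K) : S K v d := ⟨0, h⟩

lemma S.of_two {K : Set V} {v : V} {d : Dir} (h : Two d (S K (v * g d))) : S K v d := by
  obtain ⟨a, b, h1, h2, h3, ⟨j, hj⟩, ⟨k, hk⟩⟩ := h
  exact ⟨max j k + 1, Or.inr ⟨a, b, h1, h2, h3, hj.mono (le_max_left _ _),
    hk.mono (le_max_right _ _)⟩⟩

lemma fw_hull {K : Set V} : ∀ (j : ℕ) (v : V) (d : Dir), Fw K j v d →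
    ∃ Y : Finset V, (v * g d ∈ Y ∨ v * g d ∈ K) ∧
      ∀ w ∈ Y, Three fun a => w * g a ∈ Y ∨ w * g a ∈ K ∨ w * g a = v
  | 0, _, _, h => ⟨∅, Or.inr h, by simp⟩
  | j + 1, v, d, h => by
    classical
    rcases h with h | ⟨a, b, h1, h2, h3, ha, hb⟩
    · exact ⟨∅, Or.inr h, by simp⟩
    · obtain ⟨Ya, ha1, ha2⟩ := fw_hull j _ _ ha
      obtain ⟨Yb, hb1, hb2⟩ := fw_hull j _ _ hb
      refine ⟨insert (v * g d) (Ya ∪ Yb), Or.inl (by simp), fun w hw => ?_⟩
      simp only [Finset.mem_insert, Finset.mem_union] at hw ⊢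
      rcases hw with rfl | hw | hw
      · refine ⟨a, b, rev d, h1, h2, h3, ?_, ?_, ?_⟩
        · tauto
        · tauto
        · simp
      · exact (ha2 w hw).mono fun c hc => by tauto
      · exact (hb2 w hw).mono fun c hc => by tauto

lemma Nice.mem_of_three {K : Set V} (hK : Nice K) {u : V} (h : Three (S K u)) : u ∈ K := by
  classical
  obtain ⟨a, b, c, h1, h2, h3, ⟨j, ha⟩, ⟨k, hb⟩, ⟨l, hc⟩⟩ := h
  obtain ⟨Ya, ha1, ha2⟩ := fw_hull j _ _ ha
  obtain ⟨Yb, hb1, hb2⟩ := fw_hull k _ _ hb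
  obtain ⟨Yc, hc1, hc2⟩ := fw_hull l _ _ hc
  refine hK.2 (insert u (Ya ∪ Yb ∪ Yc)) (fun w hw => ?_) u (by simp)
  simp only [Finset.mem_insert, Finset.mem_union] at hw ⊢
  rcases hw with rfl | (hw | hw) | hw
  · refine ⟨a, b, c, h1, h2, h3, ?_, ?_, ?_⟩ <;> tauto
  · exact (ha2 w hw).mono fun c hc => by tauto
  · exact (hb2 w hw).mono fun c hc => by tauto
  · exact (hc2 w hw).mono fun c hc => by tauto

lemma Nice.two {K : Set V} (hK : Nice K) {v : V} {d : Dir} (h : S K v d) :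
    Two d (S K (v * g d)) := by
  have key : v * g d ∈ K → Two d (S K (v * g d)) := fun hm =>
    ((hK.1 _ hm).two d).mono fun _ _ a => S.of_mem a
  obtain ⟨j, hj⟩ := h
  cases j with
  | zero => exact key hj
  | succ j => exact hj.elim key fun t => t.mono fun _ _ a => ⟨j, a⟩

lemma Nice.head {K : Set V} (hK : Nice K) {v : V} {d : Dir} (hv : v ∈ K) (h : S K v d) :
    v * g d ∈ K :=
  hK.mem_of_three ((hK.two h).three (S.of_mem (by rwa [mul_g_rev])))

lemma ray_of_head {Km Kp : Set V} (hm : Nice Km) {v : V} {d : Dir} (h : v * g d ∈ Km)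
    (hp : ¬ S Kp v d) : Ray (Km \ Kp) v d := by
  refine Ray.of_coind (fun v d => v * g d ∈ Km ∧ ¬ S Kp v d) ?_ ⟨h, hp⟩
  rintro v d ⟨h, hp⟩
  refine ⟨⟨h, fun hh => hp (S.of_mem hh)⟩, ?_⟩
  obtain ⟨a, b, h1, h2, h3, ha, hb⟩ := (hm.1 _ h).two d
  by_cases sa : S Kp (v * g d) a
  · exact ⟨b, h3, hb, fun sb => hp (S.of_two ⟨a, b, h1, h2, h3, sa, sb⟩)⟩
  · exact ⟨a, h2, ha, sa⟩

lemma ray_of_fw {Km Kp : Set V} (hm : Nice Km) : ∀ (j : ℕ) (v : V) (d : Dir), Fw Km j v d →
    ¬ S Kp v d → ∃ r e, Desc r (v, d) e ∧ Ray (Km \ Kp) e.1 e.2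
  | 0, v, d, h, hp => ⟨0, (v, d), Desc.refl _ _, ray_of_head hm h hp⟩
  | j + 1, v, d, h, hp => by
    rcases h with h | ⟨a, b, h1, h2, h3, ha, hb⟩
    · exact ⟨0, (v, d), Desc.refl _ _, ray_of_head hm h hp⟩
    · by_cases sa : S Kp (v * g d) a
      · obtain ⟨r, e, he, hr⟩ := ray_of_fw hm j _ _ hb
          (fun sb => hp (S.of_two ⟨a, b, h1, h2, h3, sa, sb⟩))
        exact ⟨r + 1, e, Desc.step h3 he, hr⟩
      · obtain ⟨r, e, he, hr⟩ := ray_of_fw hm j _ _ ha sa
        exact ⟨r + 1, e, Desc.step h2 he, hr⟩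

lemma dir_rest : ∀ d t : Dir, t ≠ rev d →
    ∃ n s, n ≠ s ∧ n ≠ t ∧ s ≠ t ∧ n ≠ rev d ∧ s ≠ rev d := by
  have key : ∀ d t : Dir, ∃ n s : Dir, (t == rev d || (n != s && n != t && s != t && n != rev d &&
      s != rev d)) = true := by decide +kernel
  intro d t h
  obtain ⟨n, s, hk⟩ := key d t
  simp only [Bool.or_eq_true, beq_iff_eq, Bool.and_eq_true, bne_iff_ne] at hk
  exact ⟨n, s, by tauto⟩

lemma dir_cover : ∀ d t n s a : Dir, t ≠ rev d → n ≠ s → n ≠ t → s ≠ t → n ≠ rev d →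
    s ≠ rev d → a ≠ rev d → a = t ∨ a = n ∨ a = s := by
  have key : ∀ d t n s a : Dir, (t == rev d || n == s || n == t || s == t || n == rev d ||
      s == rev d || a == rev d || a == t || a == n || a == s) = true := by decide +kernel
  intro d t n s a
  have hk := key d t n s a
  simp only [Bool.or_eq_true, beq_iff_eq] at hk
  tauto

lemma dir_order (p : Dir → ℝ) (d : Dir) : ∃ t n s, t ≠ rev d ∧ n ≠ s ∧ n ≠ t ∧ s ≠ t ∧
    n ≠ rev d ∧ s ≠ rev d ∧ p t ≤ p n ∧ p t ≤ p s := by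
  obtain ⟨t, ht, hmin⟩ := Finset.exists_min_image (Finset.univ.filter fun a => a ≠ rev d) p
    ⟨d, by simpa using (rev_ne d).symm⟩
  simp only [Finset.mem_filter, Finset.mem_univ, true_and] at ht hmin
  obtain ⟨n, s, h1, h2, h3, h4, h5⟩ := dir_rest d t ht
  exact ⟨t, n, s, ht, h1, h2, h3, h4, h5, hmin n h4, hmin s h5⟩

lemma two_cases {d t n s : Dir} {P : Dir → Prop} (h0 : t ≠ rev d) (h1 : n ≠ s) (h2 : n ≠ t)
    (h3 : s ≠ t) (h4 : n ≠ rev d) (h5 : s ≠ rev d) (h : Two d P) :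
    (P n ∧ P s) ∨ (P n ∧ P t) ∨ (P s ∧ P t) := by
  obtain ⟨a, b, hab, ha, hb, pa, pb⟩ := h
  rcases dir_cover d t n s a h0 h1 h2 h3 h4 h5 ha with rfl | rfl | rfl <;>
    rcases dir_cover d _ _ _ b h0 h1 h2 h3 h4 h5 hb with rfl | rfl | rfl <;> tauto

/-! Quasi-invariance. -/

lemma meas_pw (H : Finset V) (a : Cfg) : Measurable fun b : Cfg => H.piecewise a b := by
  refine measurable_pi_lambda _ (fun j => ?_)
  by_cases hj : j ∈ H
  · simp only [Finset.piecewise, hj, if_true]; fun_prop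
  · simp only [Finset.piecewise, hj, if_false]; fun_prop

lemma qmp_pw (H : Finset V) (a : Cfg) :
    Measure.QuasiMeasurePreserving (fun b : Cfg => H.piecewise a b) pi0 pi0 := by
  refine ⟨meas_pw H a, Measure.AbsolutelyContinuous.mk fun N hN h0 => ?_⟩
  rw [Measure.map_apply (meas_pw H a) hN]
  exact MP_77ae5d_pr.H74.null_preimage_piecewise (fun _ : V => ber (1 / 2))
    (fun _ b => by rw [ber_half]; simp) H a hN h0

lemma qmp_up (h : V) (s : Bool) :
    Measure.QuasiMeasurePreserving (fun b : Cfg => Function.update b h s) pi0 pi0 := by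
  have := qmp_pw {h} (fun _ => s)
  simpa only [Finset.piecewise_singleton] using this

lemma inv_pw {P : Cfg → Prop} (H : Finset V)
    (hP : ∀ h ∈ H, ∀ s, ∀ᵐ b ∂pi0, P (Function.update b h s) ↔ P b) (a : Cfg) :
    ∀ᵐ b ∂pi0, P (H.piecewise a b) ↔ P b := by
  induction H using Finset.induction_on with
  | empty => simp
  | insert i H hi ih =>
    have h1 := ih fun h hh s => hP h (Finset.mem_insert_of_mem hh) s
    have h2 := (qmp_pw H a).ae (hP i (Finset.mem_insert_self _ _) (a i))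
    filter_upwards [h1, h2] with b e1 e2
    rw [Finset.piecewise_insert, e2, e1]

/-- Density lemma. -/
lemma levy {E : Set Cfg} (hE : MeasurableSet E) (h0 : pi0 E ≠ 0) {ε : ℝ≥0∞} (hε : ε ≠ 0) :
    ∃ (H : Finset V) (a : Cfg), pi0 {b | H.piecewise a b ∉ E} ≤ ε := by
  classical
  by_contra hc
  push Not at hc
  obtain ⟨C, hCE, hC, hC0⟩ := hE.exists_lt_isCompact_of_ne_top (μ := pi0) (measure_ne_top _ _)
    (pos_iff_ne_zero.2 h0)
  obtain ⟨T, hT, hall⟩ := MP_77ae5d_pr.H74.exists_exhaustion (ι := V)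
  let ap : ℕ → Set Cfg := fun n => {η | ∃ ζ ∈ C, ∀ i ∈ T n, ζ i = η i}
  have dep : ∀ n, Dep (ap n) (T n) := by
    rintro n η ζ h ⟨ξ, h1, h2⟩
    exact ⟨ξ, h1, fun i hi => h i hi ▸ h2 i hi⟩
  have map : ∀ n, MeasurableSet (ap n) := fun n => (dep n).measurableSet (Finset.finite_toSet _)
  have anti : Antitone (fun n => ap n \ C) := by
    rintro m n hmn η ⟨⟨ξ, h1, h2⟩, h3⟩
    exact ⟨⟨ξ, h1, fun i hi => h2 i (hT hmn hi)⟩, h3⟩
  have lim := tendsto_measure_iInter_atTop (μ := pi0)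
    (fun n => ((map n).diff hC.measurableSet).nullMeasurableSet) anti ⟨0, measure_ne_top _ _⟩
  have e0 : (⋂ n, ap n \ C) = ∅ := by
    rw [eq_empty_iff_forall_notMem]
    intro η hη
    rw [mem_iInter] at hη
    obtain ⟨ξ, h1, h2⟩ := MP_77ae5d_pr.H74.iInter_approx_subset C hC T hT hall (· = ·) η
      (fun n => (hη n).1)
    exact (hη 0).2 ((funext h2 : ξ = η) ▸ h1)
  rw [e0, measure_empty] at lim
  have hpos : 0 < ε * pi0 C := ENNReal.mul_pos hε hC0.ne'
  obtain ⟨n, hn⟩ := (lim.eventually (gt_mem_nhds hpos)).exists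
  have hm := measurable_pw (α := Bool) (T n : Set V)
  have hmap := map_pw (fun _ : V => ber (1 / 2)) (T n : Set V)
  have e1 : pi0 (ap n \ E) = ∫⁻ a, pi0 (Prod.mk a ⁻¹' ((fun p : Cfg × Cfg =>
      (T n : Set V).piecewise p.1 p.2) ⁻¹' (ap n \ E))) ∂pi0 := by
    rw [← Measure.prod_apply (((map n).diff hE).preimage hm)]
    change Measure.infinitePi _ _ = _
    rw [← hmap, Measure.map_apply hm ((map n).diff hE)]
    rfl
  have e2 : ε * pi0 (ap n) ≤ pi0 (ap n \ E) := by
    rw [e1, ← lintegral_indicator_const (map n)]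
    refine lintegral_mono fun a => ?_
    by_cases ha : a ∈ ap n
    · rw [indicator_of_mem ha]
      refine (hc (T n) a).le.trans (measure_mono fun b hb => ?_)
      simp only [mem_preimage, Finset.piecewise_coe, Set.mem_sdiff]
      refine ⟨dep n a _ (fun i hi => ?_) ha, hb⟩
      simp [Finset.piecewise, Finset.mem_coe.1 hi]
    · rw [indicator_of_notMem ha]; exact zero_le
  have e3 : pi0 C ≤ pi0 (ap n) := measure_mono fun η h => ⟨η, h, fun _ _ => rfl⟩
  have e4 : pi0 (ap n \ E) ≤ pi0 (ap n \ C) := measure_mono (sdiff_subset_sdiff_right hCE)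
  exact absurd (((mul_le_mul_right e3 ε).trans e2).trans e4) (not_le.2 hn)

lemma harrisR {A B : Set Cfg} (hA : MeasurableSet A) (hB : MeasurableSet B) (uA : IsUpperSet A)
    (uB : IsUpperSet B) : pi0.real A * pi0.real B ≤ pi0.real (A ∩ B) := by
  have := MP_77ae5d_pr.H74.harris (fun _ : V => ber (1 / 2)) hA hB uA uB
  simp only [measureReal_def]
  rw [← ENNReal.toReal_mul]
  exact ENNReal.toReal_mono (measure_ne_top _ _) this

lemma real_mono_ae {A B : Set Cfg} (h : ∀ᵐ b ∂pi0, b ∈ A → b ∈ B) : pi0.real A ≤ pi0.real B :=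
  ENNReal.toReal_mono (measure_ne_top _ _) (measure_mono_ae h)

/-- The probabilistic induction along a branch. -/
lemma branch (Sf St Ss Ku : ℕ → Set Cfg) (mf : ∀ j, MeasurableSet (Sf j))
    (mt : ∀ j, MeasurableSet (St j)) (ms : ∀ j, MeasurableSet (Ss j))
    (lf : ∀ j, IsLowerSet (Sf j)) (lt : ∀ j, IsLowerSet (St j)) (ls : ∀ j, IsLowerSet (Ss j))
    (h1 : ∀ᵐ b ∂pi0, ∀ j, (b ∈ Sf j → (b ∈ Sf (j + 1) ∧ b ∈ Ss j) ∨ (b ∈ Sf (j + 1) ∧ b ∈ St j) ∨
      (b ∈ Ss j ∧ b ∈ St j)) ∧ (b ∈ Sf (j + 1) → b ∈ Ss j → b ∈ St j → b ∈ Ku j) ∧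
      (b ∈ Ku j → b ∈ Sf (j + 1) → b ∈ Ku (j + 1)))
    (hK : ∀ j, pi0.real (Ku j) ≤ 1 / 2) (o1 : ∀ j, pi0.real (St j) ≤ pi0.real (Sf (j + 1)))
    (o2 : ∀ j, pi0.real (St j) ≤ pi0.real (Ss j)) (h0 : pi0.real (Sf 0)ᶜ ≤ 1 / 10000) :
    2 / 5 ≤ pi0.real {b | ∀ j, b ∉ St j} := by
  let N : ℕ → Set Cfg := fun j => {b | ∀ i < j, b ∉ St i}
  let A : ℕ → Set Cfg := fun j => {b | (∀ i ≤ j, b ∈ Sf i) ∧ ∀ i < j, b ∈ Ss i}
  have mN : ∀ j, MeasurableSet (N j) := fun j => by
    have : N j = ⋂ i, ⋂ _ : i < j, (St i)ᶜ := by ext; simp [N]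
    rw [this]
    exact MeasurableSet.iInter fun i => MeasurableSet.iInter fun _ => (mt i).compl
  have mA : ∀ j, MeasurableSet (A j) := fun j => by
    have : A j = (⋂ i, ⋂ _ : i ≤ j, Sf i) ∩ ⋂ i, ⋂ _ : i < j, Ss i := by ext; simp [A]
    rw [this]
    exact (MeasurableSet.iInter fun i => MeasurableSet.iInter fun _ => mf i).inter
      (MeasurableSet.iInter fun i => MeasurableSet.iInter fun _ => ms i)
  have uN : ∀ j, IsUpperSet (N j) := fun j b b' hb h i hi hh => h i hi (lt i hb hh)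
  have uA : ∀ j, IsUpperSet (A j)ᶜ := fun j b b' hb h hh =>
    h ⟨fun i hi => lf i hb (hh.1 i hi), fun i hi => ls i hb (hh.2 i hi)⟩
  have hAN : ∀ j, pi0.real (A j)ᶜ * pi0.real (N j) ≤ 1 / 10000 := fun j => by
    refine (harrisR (mA j).compl (mN j) (uA j) (uN j)).trans ((real_mono_ae ?_).trans h0)
    filter_upwards [h1] with b hb ⟨hA, hN⟩ hf
    apply hA
    have key : ∀ i ≤ j, b ∈ Sf i := by
      intro i hi
      induction i with
      | zero => exact hf
      | succ i ih =>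
        have := (hb i).1 (ih (by omega))
        have := hN i (by omega)
        tauto
    refine ⟨key, fun i hi => ?_⟩
    have := (hb i).1 (key i hi.le)
    have := hN i hi
    tauto
  have cpl : ∀ B : Set Cfg, MeasurableSet B → pi0.real Bᶜ = 1 - pi0.real B := fun B hB => by
    rw [measureReal_compl hB, probReal_univ]
  have main : ∀ j, 2 / 5 ≤ pi0.real (N j) := by
    intro j
    induction j with
    | zero =>
      have : N 0 = univ := by ext; simp [N]
      rw [this, probReal_univ]; norm_num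
    | succ j ih =>
      have a0 : 0 ≤ pi0.real (A j)ᶜ := measureReal_nonneg
      have a1 : pi0.real (Sf j)ᶜ ≤ 1 / 4000 := by
        have : pi0.real (Sf j)ᶜ ≤ pi0.real (A j)ᶜ :=
          measureReal_mono fun b hb hh => hb (hh.1 j le_rfl)
        have := hAN j
        nlinarith
      have a2 : pi0.real (Sf (j + 1))ᶜ * pi0.real (St j)ᶜ ≤ 1 / 4000 := by
        refine (harrisR (mf _).compl (mt _).compl (lf _).compl (lt _).compl).trans
          ((real_mono_ae ?_).trans a1)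
        filter_upwards [h1] with b hb ⟨x, y⟩ hf
        have := (hb j).1 hf
        simp only [mem_compl_iff] at x y
        tauto
      have a3 : pi0.real (Ss j)ᶜ * pi0.real (St j)ᶜ ≤ 1 / 4000 := by
        refine (harrisR (ms _).compl (mt _).compl (ls _).compl (lt _).compl).trans
          ((real_mono_ae ?_).trans a1)
        filter_upwards [h1] with b hb ⟨x, y⟩ hf
        have := (hb j).1 hf
        simp only [mem_compl_iff] at x y
        tauto
      have b2 : pi0.real (Sf (j + 1))ᶜ ≤ 1 / 50 := by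
        have e1 := cpl _ (mf (j + 1))
        have e2 := cpl _ (mt j)
        have := o1 j
        by_contra hc
        push Not at hc
        nlinarith
      have b3 : pi0.real (Ss j)ᶜ ≤ 1 / 50 := by
        have e1 := cpl _ (ms j)
        have e2 := cpl _ (mt j)
        have := o2 j
        by_contra hc
        push Not at hc
        nlinarith
      have a4 : pi0.real (St j) ≤ 27 / 50 := by
        have : pi0.real (St j) ≤ pi0.real (Ku j ∪ ((Sf (j + 1))ᶜ ∪ (Ss j)ᶜ)) := by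
          refine real_mono_ae ?_
          filter_upwards [h1] with b hb ht
          have := (hb j).2.1
          simp only [mem_union, mem_compl_iff]
          tauto
        have u1 := measureReal_union_le (μ := pi0) (Ku j) ((Sf (j + 1))ᶜ ∪ (Ss j)ᶜ)
        have u2 := measureReal_union_le (μ := pi0) (Sf (j + 1))ᶜ (Ss j)ᶜ
        have := hK j
        linarith
      have a5 : 23 / 125 ≤ pi0.real (N (j + 1)) := by
        have e : N (j + 1) = N j ∩ (St j)ᶜ := by
          ext b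
          simp only [N, mem_ofPred_eq, mem_inter_iff, mem_compl_iff, Nat.forall_lt_succ_right]
        have := harrisR (mN j) (mt j).compl (uN j) (lt j).compl
        rw [← e, cpl _ (mt j)] at this
        nlinarith
      have a6 : pi0.real (A (j + 1))ᶜ ≤ 1 / 1000 := by
        have := hAN (j + 1)
        have a0 : 0 ≤ pi0.real (A (j + 1))ᶜ := measureReal_nonneg
        nlinarith
      have a7 : pi0.real (N (j + 1))ᶜ ≤ pi0.real (Ku (j + 1) ∪ (A (j + 1))ᶜ) := by
        refine real_mono_ae ?_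
        filter_upwards [h1] with b hb hN
        by_cases hA : b ∈ A (j + 1)
        · left
          simp only [N, mem_compl_iff, mem_ofPred_eq, not_forall, not_not] at hN
          obtain ⟨i, hi, ht⟩ := hN
          have k0 : b ∈ Ku i := (hb i).2.1 (hA.1 _ hi) (hA.2 _ hi) ht
          have key : ∀ m, i ≤ m → m ≤ j + 1 → b ∈ Ku m := by
            intro m hm
            induction m, hm using Nat.le_induction with
            | base => exact fun _ => k0
            | succ m _ ih => exact fun hm => (hb m).2.2 (ih (by omega)) (hA.1 _ hm)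
          exact key _ hi.le le_rfl
        · exact Or.inr hA
      have u1 := measureReal_union_le (μ := pi0) (Ku (j + 1)) (A (j + 1))ᶜ
      have := hK (j + 1)
      rw [cpl _ (mN _)] at a7
      linarith
  have anti : Antitone N := fun m n hmn b hb i hi => hb i (by omega)
  have lim := tendsto_measure_iInter_atTop (μ := pi0)
    (fun n => (mN n).nullMeasurableSet) anti ⟨0, measure_ne_top _ _⟩
  have lim' := (ENNReal.tendsto_toReal (measure_ne_top _ _)).comp lim
  have e : (⋂ n, N n) = {b | ∀ j, b ∉ St j} := by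
    ext b
    simp only [N, mem_iInter, mem_ofPred_eq]
    exact ⟨fun h j => h (j + 1) j (by omega), fun h _ i _ => h i⟩
  rw [e] at lim'
  exact ge_of_tendsto' lim' main

end Pool.Agent.MP_887f27_pr.H48
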