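import Pool.Agent.MP_887f27_pr.H48.AbsDet

/-! The limit object does not exist. -/

namespace Pool.Agent.MP_887f27_pr.H48

open MeasureTheory ProbabilityTheory Set Filter Topology
open scoped ENNReal
open Pool.Agent.MP_887f27_pr.H69

/-- A ray along `e` has positive probability. -/
def Gd (K : Cfg → Set V) (h : V) (e : V × Dir) : Prop := pi0 {b | Ray (F K h b) e.1 e.2} ≠ 0

/-- Some descendant carries a ray with positive probability. -/
def G (K : Cfg → Set V) (h : V) (e : V × Dir) : Prop := ∃ r e', Desc r e e' ∧ Gd K h e'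

variable {K : Cfg → Set V}

lemma G.of_desc {h : V} {r : ℕ} {e e' : V × Dir} (hd : Desc r e e') (hg : G K h e') :
    G K h e := by
  obtain ⟨s, e'', h1, h2⟩ := hg
  exact ⟨r + s, e'', hd.trans h1, h2⟩

lemma Gd.toG {h : V} {e : V × Dir} (hg : Gd K h e) : G K h e := ⟨0, e, Desc.refl _ _, hg⟩

/-- The backward direction is good once a branch was left behind. -/
lemma G.back {h u : V} {a c : Dir} {r : ℕ} {e : V × Dir} (hd : Desc r (u, a) e) (hac : c ≠ a)
    (hg : G K h (u, c)) : G K h (e.1 * g e.2, rev e.2) := by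
  refine G.of_desc hd.reverse (G.of_desc (Desc.child (u * g a) (d := rev a) (d' := c)
    (by rwa [rev_rev])) ?_)
  rwa [mul_g_rev]

lemma ae_gd (h : V) : ∀ᵐ b ∂pi0, ∀ e : V × Dir, Ray (F K h b) e.1 e.2 → Gd K h e := by
  rw [ae_all_iff]
  intro e
  by_cases he : Gd K h e
  · exact Eventually.of_forall fun _ _ => he
  · simp only [Gd, ne_eq, not_not] at he
    filter_upwards [measure_eq_zero_iff_ae_notMem.1 he] with b hb hr
    exact absurd hr hb

lemma exists_of_ne_zero {A : Set Cfg} (hA : pi0 A ≠ 0) {P : Cfg → Prop} (hP : ∀ᵐ b ∂pi0, P b) :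
    ∃ b ∈ A, P b := by
  by_contra hc
  apply hA
  rw [measure_eq_zero_iff_ae_notMem]
  filter_upwards [hP] with b hb hbA
  exact hc ⟨b, hbA, hb⟩

lemma Gd.child {h : V} {e : V × Dir} (hg : Gd K h e) :
    ∃ d, d ≠ rev e.2 ∧ Gd K h (e.1 * g e.2, d) := by
  obtain ⟨b, hb, hP⟩ := exists_of_ne_zero hg (ae_gd (K := K) h)
  obtain ⟨_, d, h1, h2⟩ := Ray.step hb
  exact ⟨d, h1, hP (_, d) h2⟩

lemma up_le (b : Cfg) (h : V) (s : Bool) :
    Function.update b h false ≤ Function.update b h s ∧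
      Function.update b h s ≤ Function.update b h true :=
  ⟨update_le_update_iff.2 ⟨by simp, fun _ _ => le_rfl⟩,
    update_le_update_iff.2 ⟨by simp, fun _ _ => le_rfl⟩⟩

lemma up_le' (b : Cfg) (h : V) :
    Function.update b h false ≤ b ∧ b ≤ Function.update b h true := by
  have := up_le b h (b h)
  rwa [Function.update_eq_self] at this

lemma ae_nice (hN : ∀ᵐ b ∂pi0, Nice (K b)) (h : V) :
    ∀ᵐ b ∂pi0, Nice (K (Function.update b h false)) ∧ Nice (K (Function.update b h true)) :=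
  ((qmp_up h false).ae hN).and ((qmp_up h true).ae hN)

lemma step1 (mK : ∀ y, MeasurableSet {b | y ∈ K b}) (aK : ∀ b b', b ≤ b' → K b' ⊆ K b)
    (hh : pi0 {b | 1 ∈ K b} ≤ 1 / 2) (h0 : pi0 {b | 1 ∈ K b} ≠ 0)
    (hN : ∀ᵐ b ∂pi0, Nice (K b)) : ∃ h e, Gd K h e := by
  have key : ∃ h, pi0 {b | 1 ∈ F K h b} ≠ 0 := by
    by_contra hc
    push Not at hc
    obtain ⟨H, a, hH⟩ := levy (mK 1) h0 (ε := 1 / 4) (by simp)
    have hi := inv_pw (P := fun b => 1 ∈ K b) H (fun h _ s => by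
      filter_upwards [measure_eq_zero_iff_ae_notMem.1 (hc h)] with b hb
      simp only [F, Set.mem_sdiff, not_and, not_not] at hb
      exact ⟨fun x => aK _ _ (up_le' b h).2 (hb (aK _ _ (up_le b h s).1 x)),
        fun x => aK _ _ (up_le b h s).2 (hb (aK _ _ (up_le' b h).1 x))⟩) a
    have e1 : pi0 {b | 1 ∈ K b}ᶜ ≤ 1 / 4 := by
      refine le_trans (measure_mono_ae ?_) hH
      filter_upwards [hi] with b hb hx hy
      exact hx (hb.1 hy)
    have e2 := measure_add_measure_compl (μ := pi0) (mK 1)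
    rw [measure_univ] at e2
    have e3 : (1 : ℝ≥0∞) ≤ 1 / 2 + 1 / 4 := e2.symm.le.trans (add_le_add hh e1)
    have := ENNReal.toReal_mono (by finiteness) e3
    rw [ENNReal.toReal_add (by finiteness) (by finiteness)] at this
    norm_num at this
  obtain ⟨h, hh⟩ := key
  obtain ⟨b, hb, ⟨hm, hp⟩, hP⟩ := exists_of_ne_zero hh ((ae_nice hN h).and (ae_gd (K := K) h))
  obtain ⟨x, y, hxy, hx, hy⟩ := not_three fun t => hb.2 (hp.mem_of_three t)
  by_cases c : 1 * g x ∈ K (Function.update b h false)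
  · exact ⟨h, (1, x), hP (1, x) (ray_of_head hm c hx)⟩
  · have c' : 1 * g y ∈ K (Function.update b h false) := by
      by_contra c'
      exact (hm.1 1 hb.1).not_two_fail hxy c c'
    exact ⟨h, (1, y), hP (1, y) (ray_of_head hm c' hy)⟩

lemma step2a (hT : ∀ h y, ¬ Three fun d => G K h (y, d)) {h : V} {e0 : V × Dir}
    (h0 : Gd K h e0) : ∃ e, Gd K h e ∧ ∀ r e', Desc r e e' →
      ¬ Two e'.2 fun d => G K h (e'.1 * g e'.2, d) := by
  by_contra hc
  push Not at hc
  obtain ⟨r, e1, -, a, b, hab, -, -, ⟨s, e2, hd2, hg2⟩, hb⟩ := hc e0 h0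
  obtain ⟨t, e3, hd3, h3⟩ := hc e2 hg2
  exact hT h _ (h3.three (G.back (hd2.trans hd3) hab.symm hb))

/-- A sequence of edges, each a child of the one before. -/
def Chain (e : ℕ → V × Dir) : Prop :=
  ∀ i, (e (i + 1)).1 = (e i).1 * g (e i).2 ∧ (e (i + 1)).2 ≠ rev (e i).2

lemma Chain.desc {e : ℕ → V × Dir} (he : Chain e) {i j : ℕ} (hij : i ≤ j) :
    ∃ r, Desc r (e i) (e j) := by
  induction j, hij using Nat.le_induction with
  | base => exact ⟨0, Desc.refl _ _⟩
  | succ j _ ih =>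
    obtain ⟨r, hr⟩ := ih
    refine ⟨r + 1, hr.trans ?_⟩
    have := Desc.child (e j).1 (he j).2
    rwa [← (he j).1] at this

lemma step2 (hT : ∀ h y, ¬ Three fun d => G K h (y, d)) {h : V} {e0 : V × Dir}
    (h0 : Gd K h e0) : ∃ e : ℕ → V × Dir, Chain e ∧ pi0 {b | ∀ i, (e (i + 1)).1 ∈ F K h b} ≠ 0 := by
  obtain ⟨e1, h1, h2⟩ := step2a hT h0
  choose nx hn1 hn2 using fun x : {e // Gd K h e} => x.2.child
  let f : {e // Gd K h e} → {e // Gd K h e} := fun x => ⟨(x.1.1 * g x.1.2, nx x), hn2 x⟩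
  let e : ℕ → {e // Gd K h e} := fun i => f^[i] ⟨e1, h1⟩
  have es : ∀ i, e (i + 1) = f (e i) := fun i => Function.iterate_succ_apply' _ _ _
  have ch : Chain fun i => (e i).1 := fun i => by
    simp only [es]; exact ⟨rfl, hn1 _⟩
  refine ⟨fun i => (e i).1, ch, fun hz => h1 (measure_mono_null_ae ?_ hz)⟩
  filter_upwards [ae_gd (K := K) h] with b hb hr
  have key : ∀ i, Ray (F K h b) (e i).1.1 (e i).1.2 := by
    intro i
    induction i with
    | zero => exact hr
    | succ i ih =>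
      obtain ⟨_, d, k1, k2⟩ := Ray.step ih
      obtain ⟨r, hr⟩ := ch.desc (Nat.zero_le i)
      have : d = (e (i + 1)).1.2 := by
        by_contra hne
        refine h2 r _ hr ⟨d, _, hne, k1, (ch i).2, (hb (_, d) k2).toG, ?_⟩
        have := (e (i + 1)).2.toG
        rwa [← (ch i).1]
      rw [(ch i).1, ← this]
      exact k2
  intro i
  rw [(ch i).1]
  exact (Ray.step (key i)).1

lemma side_finite (hT : ∀ h y, ¬ Three fun d => G K h (y, d)) {e : ℕ → V × Dir} (ch : Chain e)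
    (h : V) : {i | ∃ y, y ≠ rev (e i).2 ∧ y ≠ (e (i + 1)).2 ∧ G K h ((e (i + 1)).1, y)}.Finite := by
  by_contra hc
  have hi : Set.Infinite _ := hc
  obtain ⟨i1, y1, -, a2, a3⟩ := hi.nonempty
  obtain ⟨i2, ⟨y2, b1, b2, b3⟩, h12⟩ := hi.exists_gt i1
  obtain ⟨i3, ⟨y3, c1, -, c3⟩, h23⟩ := hi.exists_gt i2
  refine hT h (e (i2 + 1)).1 ⟨y2, (e (i2 + 1)).2, rev (e i2).2, b2, b1, (ch i2).2, b3, ?_, ?_⟩
  · obtain ⟨r, hr⟩ := ch.desc (show i2 + 1 ≤ i3 by omega)
    refine G.of_desc hr (G.of_desc (Desc.child (e i3).1 c1) ?_)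
    rwa [← (ch i3).1]
  · obtain ⟨r, hr⟩ := ch.desc (show i1 + 1 ≤ i2 by omega)
    rw [(ch i2).1]
    exact G.back (u := (e (i1 + 1)).1) (a := (e (i1 + 1)).2) hr a2 a3

lemma free_up (aK : ∀ b b', b ≤ b' → K b' ⊆ K b) (hN : ∀ᵐ b ∂pi0, Nice (K b)) {h : V}
    {e : V × Dir} (hg : ¬ G K h e) (s : Bool) :
    ∀ᵐ b ∂pi0, S (K (Function.update b h s)) e.1 e.2 ↔ S (K b) e.1 e.2 := by
  filter_upwards [ae_nice hN h, ae_gd (K := K) h] with b ⟨hm, _⟩ hb
  have key : S (K (Function.update b h false)) e.1 e.2 →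
      S (K (Function.update b h true)) e.1 e.2 := by
    rintro ⟨j, hj⟩
    by_contra hp
    obtain ⟨r, e', h1, h2⟩ := ray_of_fw hm j _ _ hj hp
    exact hg ⟨r, e', h1, hb e' h2⟩
  exact ⟨fun x => (key (x.mono (aK _ _ (up_le b h s).1))).mono (aK _ _ (up_le' b h).2),
    fun x => (key (x.mono (aK _ _ (up_le' b h).1))).mono (aK _ _ (up_le b h s).2)⟩

lemma free_all (aK : ∀ b b', b ≤ b' → K b' ⊆ K b) (hN : ∀ᵐ b ∂pi0, Nice (K b)) {h : V}
    {H : Finset V} (a : Cfg) {e : V × Dir} (hg : ∀ h' ∈ insert h H, ¬ G K h' e) :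
    ∀ᵐ b ∂pi0, ∀ s (r : ℕ) e', Desc r e e' →
      (S (K (Function.update (H.piecewise a b) h s)) e'.1 e'.2 ↔ S (K b) e'.1 e'.2) := by
  simp only [ae_all_iff]
  intro s r e' hd
  have h1 := inv_pw (P := fun b => S (K b) e'.1 e'.2) H (fun h' hh s =>
    free_up aK hN (fun x => hg h' (Finset.mem_insert_of_mem hh) (G.of_desc hd x)) s) a
  have h2 := (qmp_pw H a).ae
    (free_up aK hN (fun x => hg h (Finset.mem_insert_self _ _) (G.of_desc hd x)) s)
  filter_upwards [h1, h2] with b e1 e2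
  rw [e2, e1]

lemma ms_S (mK : ∀ y, MeasurableSet {b | y ∈ K b}) (v : V) (d : Dir) :
    MeasurableSet {b | S (K b) v d} :=
  measurableSet_setOfPred.2 (Measurable.exists fun j =>
    measurableSet_setOfPred.1 (ms_fw mK j v d))

lemma low_S (aK : ∀ b b', b ≤ b' → K b' ⊆ K b) (v : V) (d : Dir) :
    IsLowerSet {b | S (K b) v d} := fun _ _ hb h => S.mono (aK _ _ hb) h

theorem abstr : AbstractStmt := by
  intro K mK aK hh h0 hN hT
  change ∀ᵐ b ∂pi0, Nice (K b) at hN
  change ∀ h y, ¬ Three fun d => G K h (y, d) at hT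
  obtain ⟨h, e0, he0⟩ := step1 mK aK (hh 1) h0 hN
  obtain ⟨e, ch, hE⟩ := step2 hT he0
  have mE : MeasurableSet {b | ∀ i, (e (i + 1)).1 ∈ F K h b} :=
    measurableSet_setOfPred.2 (Measurable.forall fun i =>
      measurableSet_setOfPred.1 (ms_F mK h _))
  obtain ⟨H, a, hH⟩ := levy mE hE (ε := ENNReal.ofReal (1 / 100000000)) (by simp)
  have hH' : pi0.real {b | ¬ ∀ i, (e (i + 1)).1 ∈ F K h (H.piecewise a b)} ≤ 1 / 100000000 :=
    ENNReal.toReal_le_of_le_ofReal (by norm_num) hH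
  obtain ⟨i, hi⟩ := ((insert h H).finite_toSet.biUnion
    fun h' _ => side_finite hT ch h').exists_notMem
  simp only [mem_iUnion, mem_ofPred_eq, not_exists, not_and, Finset.mem_coe] at hi
  obtain ⟨y, z, hyz, hy1, hz1, hy2, hz2⟩ := dir_rest (e i).2 (e (i + 1)).2 (ch i).2
  set x := (e (i + 1)).1 with hx
  have fy : ∀ h' ∈ insert h H, ¬ G K h' (x, y) := fun h' hh => hi h' hh y hy2 hy1
  have fz : ∀ h' ∈ insert h H, ¬ G K h' (x, z) := fun h' hh => hi h' hh z hz2 hz1
  have nice := (qmp_pw H a).ae (ae_nice hN h)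
  have hyz' : pi0.real {b | S (K b) x y}ᶜ * pi0.real {b | S (K b) x z}ᶜ ≤ 1 / 100000000 := by
    refine (harrisR (ms_S mK _ _).compl (ms_S mK _ _).compl (low_S aK _ _).compl
      (low_S aK _ _).compl).trans ((real_mono_ae ?_).trans hH')
    filter_upwards [nice, free_all aK hN a fy, free_all aK hN a fz] with b ⟨hm, _⟩ k1 k2 ⟨s1, s2⟩ hb
    exact (hm.1 x (hb i).1).not_two_fail hyz
      (fun c => s1 ((k1 false 0 _ (Desc.refl _ _)).1 (S.of_mem c)))
      (fun c => s2 ((k2 false 0 _ (Desc.refl _ _)).1 (S.of_mem c)))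
  obtain ⟨w, fw, hw⟩ : ∃ w, (∀ h' ∈ insert h H, ¬ G K h' (x, w)) ∧
      pi0.real {b | S (K b) x w}ᶜ ≤ 1 / 10000 := by
    by_contra hc
    push Not at hc
    have := hc y fy
    have := hc z fz
    nlinarith
  choose t n s o0 o1 o2 o3 o4 o5 o6 o7 using fun f : V × Dir =>
    dir_order (fun d => pi0.real {b | S (K b) (f.1 * g f.2) d}) f.2
  let f : ℕ → V × Dir := fun j => (fun f : V × Dir => (f.1 * g f.2, n f))^[j] (x, w)
  have fs : ∀ j, f (j + 1) = ((f j).1 * g (f j).2, n (f j)) := fun j =>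
    Function.iterate_succ_apply' _ _ _
  have f0 : f 0 = (x, w) := rfl
  have chf : Chain f := fun j => by rw [fs]; exact ⟨rfl, o4 _⟩
  have det : ∀ U : Set V, Nice U → ∀ j, S U (f j).1 (f j).2 →
      (S U (f (j + 1)).1 (f (j + 1)).2 ∧ S U (f (j + 1)).1 (s (f j))) ∨
      (S U (f (j + 1)).1 (f (j + 1)).2 ∧ S U (f (j + 1)).1 (t (f j))) ∨
      (S U (f (j + 1)).1 (s (f j)) ∧ S U (f (j + 1)).1 (t (f j))) := by
    intro U hU j hj
    rw [fs]
    exact two_cases (o0 _) (o1 _) (o2 _) (o3 _) (o4 _) (o5 _) (hU.two hj)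
  have hW := branch (fun j => {b | S (K b) (f j).1 (f j).2})
    (fun j => {b | S (K b) (f (j + 1)).1 (t (f j))}) (fun j => {b | S (K b) (f (j + 1)).1 (s (f j))})
    (fun j => {b | (f (j + 1)).1 ∈ K b}) (fun _ => ms_S mK _ _) (fun _ => ms_S mK _ _)
    (fun _ => ms_S mK _ _) (fun _ => low_S aK _ _) (fun _ => low_S aK _ _) (fun _ => low_S aK _ _)
    (by
      filter_upwards [hN] with b hb j
      refine ⟨det _ hb j, fun k1 k2 k3 => ?_, fun k1 k2 => ?_⟩
      · refine hb.mem_of_three ⟨(f (j + 1)).2, s (f j), t (f j), ?_, ?_, o3 _, k1, k2, k3⟩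
        · rw [fs]; exact o1 _
        · rw [fs]; exact o2 _
      · simp only [(chf (j + 1)).1]
        exact hb.head k1 k2)
    (fun j => by
      have := ENNReal.toReal_mono (by finiteness) (hh (f (j + 1)).1)
      simpa [measureReal_def] using this)
    (fun j => by simp only [fs]; exact o6 _) (fun j => by simp only [fs]; exact o7 _) hw
  have nr : ∀ᵐ b ∂pi0, ¬ Ray (F K h (H.piecewise a b)) x w := by
    filter_upwards [(qmp_pw H a).ae (ae_gd (K := K) h)] with b hb hr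
    exact fw h (Finset.mem_insert_self _ _) (hb (x, w) hr).toG
  have fin : pi0.real {b | ∀ j, b ∉ {b | S (K b) (f (j + 1)).1 (t (f j))}} ≤
      pi0.real ({b | S (K b) x w}ᶜ ∪ {b | ¬ ∀ i, (e (i + 1)).1 ∈ F K h (H.piecewise a b)}) := by
    refine real_mono_ae ?_
    filter_upwards [nice, free_all aK hN a fw, nr, hN] with b ⟨hm, hp⟩ k1 k2 k3 hb
    by_contra hc
    simp only [mem_union, mem_compl_iff, mem_ofPred_eq, not_or, not_not] at hc hb
    obtain ⟨c1, c2⟩ := hc
    apply k2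
    have sf : ∀ j, S (K b) (f j).1 (f j).2 := by
      intro j
      induction j with
      | zero => exact c1
      | succ j ih =>
        have := det _ k3 j ih
        have := hb j
        tauto
    have st : ∀ j, (f j).1 ∈ F K h (H.piecewise a b) := by
      intro j
      induction j with
      | zero => exact c2 i
      | succ j ih =>
        obtain ⟨r, hr⟩ := chf.desc (Nat.zero_le j)
        refine ⟨?_, fun hc => ?_⟩
        · rw [(chf j).1]
          exact hm.head ih.1 ((k1 false r _ hr).2 (sf j))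
        · refine (hp.1 _ hc).not_two_fail (o0 (f j)) (fun c => hb j ?_) (fun c => ih.2 ?_)
          · have hd := hr.trans (Desc.child (f j).1 (o0 (f j)))
            rw [← (chf j).1] at hd
            exact (k1 true _ _ hd).1 (S.of_mem c)
          · rwa [(chf j).1, mul_g_rev] at c
    refine Ray.of_coind (fun v d => ∃ j, f j = (v, d)) ?_ ⟨0, f0⟩
    rintro v d ⟨j, hj⟩
    have k := chf j
    have k' := st (j + 1)
    rw [hj] at k
    rw [k.1] at k'
    exact ⟨k', (f (j + 1)).2, k.2, j + 1, Prod.ext k.1 rfl⟩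
  have := measureReal_union_le (μ := pi0) {b | S (K b) x w}ᶜ
    {b | ¬ ∀ i, (e (i + 1)).1 ∈ F K h (H.piecewise a b)}
  linarith

end Pool.Agent.MP_887f27_pr.H48
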